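import Pool.Agent.H97.QN.LIN

namespace H97.QN

open Filter Topology Set H23.QN

noncomputable section

theorem B0 (hG : S_G1) (hB : S_BT) : S_B0 := by
  intro ν _ V hc hS
  rintro ⟨σ0, T0⟩ ⟨hσ0, hT0⟩
  have hσ0 : 0 ≤ σ0 := hσ0
  have hT0 : 0 ≤ T0 := hT0
  set T1 : ℝ := T0 + 1 with hT1
  have hT1' : 0 ≤ T1 := by linarith
  -- a bound for the base solution
  obtain ⟨M, hM⟩ : ∃ M : ℝ, ∀ t ∈ Icc 0 T1, ‖V σ0 t‖ ≤ M := by
    have h1 : ContinuousOn (fun t => ‖V σ0 t‖) (Icc 0 T1) :=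
      ((hS σ0 hσ0).cont.mono (fun t ht => ht.1)).norm
    obtain ⟨M, hM⟩ := isCompact_Icc.exists_bound_of_continuousOn h1
    exact ⟨M, fun t ht => by simpa using hM t ht⟩
  have hM0 : 0 ≤ M := (norm_nonneg _).trans (hM 0 ⟨le_refl _, hT1'⟩)
  -- the difference estimate
  have key : ∀ σ : ℝ, 0 ≤ σ → ‖V σ 0 - V σ0 0‖ < Real.exp (-((2 * M + 1) * T1)) →
      ∀ t ∈ Icc 0 T1, ‖V σ t - V σ0 t‖ ≤ ‖V σ 0 - V σ0 0‖ * Real.exp ((2 * M + 1) * T1) := by
    intro σ hσ hsmall
    have hcU : ContinuousOn (fun t => V σ t - V σ0 t) (Icc 0 T1) :=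
      ((hS σ hσ).cont.mono (fun t ht => ht.1)).sub ((hS σ0 hσ0).cont.mono (fun t ht => ht.1))
    have hlin : IsLin Complex.I T1 (fun t => V σ t - V σ0 t)
        (fun t => Complex.I • (V σ t * V σ t - V σ0 t * V σ0 t)) := by
      refine ⟨hcU, ?_, ?_⟩
      · have h1 : ContinuousOn (fun t => V σ t) (Icc 0 T1) :=
          (hS σ hσ).cont.mono (fun t ht => ht.1)
        have h2 : ContinuousOn (fun t => V σ0 t) (Icc 0 T1) :=
          (hS σ0 hσ0).cont.mono (fun t ht => ht.1)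
        exact ((h1.mul h1).sub (h2.mul h2)).const_smul Complex.I
      · intro k t ht
        have h1 := (hS σ hσ).eqn t ht.1 k
        have h2 := (hS σ0 hσ0).eqn t ht.1 k
        have h3 : (fun s => (V σ s - V σ0 s) k) = fun s => V σ s k - V σ0 s k := by
          funext s; rfl
        rw [h3]
        refine (h1.sub h2).congr_deriv ?_
        rw [WA.smul_apply, WA.sub_apply, WA.sub_apply, smul_eq_mul]
        ring
    have hstep : ∀ t ∈ Icc 0 T1, (∀ τ ∈ Icc 0 t, ‖V σ τ - V σ0 τ‖ ≤ 1) →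
        ‖V σ t - V σ0 t‖ ≤ ‖V σ 0 - V σ0 0‖ * Real.exp ((2 * M + 1) * T1) := by
      intro t ht hτ
      have h1 := hG ν Complex.I t 0 (2 * M + 1) _ _ ht.1 (by linarith)
        (IsLin.short hlin ht.2) (fun k => Or.inr (by simp)) (fun s hs => by
          rw [norm_smul, Complex.norm_I, one_mul]
          have h2 : V σ s * V σ s - V σ0 s * V σ0 s =
              (V σ s - V σ0 s) * V σ0 s + V σ0 s * (V σ s - V σ0 s)
                + (V σ s - V σ0 s) * (V σ s - V σ0 s) := by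
            rw [sub_mul, mul_sub, mul_sub, sub_mul, sub_mul]
            abel
          have h3 := WA.norm_mul_le' (V σ s - V σ0 s) (V σ0 s)
          have h4 := WA.norm_mul_le' (V σ0 s) (V σ s - V σ0 s)
          have h5 := WA.norm_mul_le' (V σ s - V σ0 s) (V σ s - V σ0 s)
          have h6 := hM s ⟨hs.1, hs.2.trans ht.2⟩
          have h7 := hτ s hs
          have h8 := norm_nonneg (V σ s - V σ0 s)
          rw [h2]
          refine (norm_add₃_le).trans ?_
          nlinarith) t ⟨ht.1, le_refl _⟩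
      refine h1.trans ?_
      apply mul_le_mul_of_nonneg_left _ (norm_nonneg _)
      apply Real.exp_le_exp.2
      rw [sub_zero]
      exact mul_le_mul_of_nonneg_left ht.2 (by linarith)
    have hlt : ‖V σ 0 - V σ0 0‖ * Real.exp ((2 * M + 1) * T1) < 1 := by
      have h1 : Real.exp (-((2 * M + 1) * T1)) * Real.exp ((2 * M + 1) * T1) = 1 := by
        rw [← Real.exp_add]; simp
      calc ‖V σ 0 - V σ0 0‖ * Real.exp ((2 * M + 1) * T1)
          < Real.exp (-((2 * M + 1) * T1)) * Real.exp ((2 * M + 1) * T1) :=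
            mul_lt_mul_of_pos_right hsmall (Real.exp_pos _)
        _ = 1 := h1
    have hboot := hB (fun t => ‖V σ t - V σ0 t‖) T1 1 hT1' hcU.norm
      (by
        have h1 : Real.exp (-((2 * M + 1) * T1)) ≤ 1 := by
          apply Real.exp_le_one_iff.2
          have : 0 ≤ (2 * M + 1) * T1 := by positivity
          linarith
        exact hsmall.trans_le h1)
      (fun t ht hτ => (hstep t ht hτ).trans_lt hlt)
    intro t ht
    exact hstep t ht (fun τ hτ => (hboot τ ⟨hτ.1, hτ.2.trans ht.2⟩).le)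
  -- conclusion
  rw [Metric.continuousWithinAt_iff]
  intro ε hε
  have hA : 0 < Real.exp ((2 * M + 1) * T1) := Real.exp_pos _
  obtain ⟨δ1, hδ1, h1⟩ := Metric.continuousWithinAt_iff.1 (hc σ0 hσ0)
    (min (Real.exp (-((2 * M + 1) * T1))) (ε / 2 / Real.exp ((2 * M + 1) * T1)))
    (lt_min (Real.exp_pos _) (by positivity))
  obtain ⟨δ2, hδ2, h2⟩ := Metric.continuousWithinAt_iff.1 ((hS σ0 hσ0).cont T0 hT0)
    (ε / 2) (by positivity)
  refine ⟨min (min δ1 δ2) 1, lt_min (lt_min hδ1 hδ2) one_pos, ?_⟩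
  rintro ⟨σ, T⟩ ⟨hσ, hT⟩ hdist
  have hσ : 0 ≤ σ := hσ
  have hT : 0 ≤ T := hT
  rw [Prod.dist_eq, max_lt_iff] at hdist
  obtain ⟨hd1, hd2⟩ := hdist
  simp only at hd1 hd2
  have h3 := h1 hσ (hd1.trans_le ((min_le_left _ _).trans (min_le_left _ _)))
  have h4 := h2 hT (hd2.trans_le ((min_le_left _ _).trans (min_le_right _ _)))
  rw [dist_eq_norm] at h3 h4 ⊢
  have h5 := h3.trans_le (min_le_left _ _)
  have h6 := h3.trans_le (min_le_right _ _)
  have hTT : T ≤ T1 := by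
    have h7 := hd2.trans_le (min_le_right _ _)
    rw [Real.dist_eq] at h7
    have := (abs_lt.1 h7).2
    linarith
  have h8 := key σ hσ h5 T ⟨hT, hTT⟩
  have h9 : ‖V σ 0 - V σ0 0‖ * Real.exp ((2 * M + 1) * T1) < ε / 2 := by
    rwa [lt_div_iff₀ hA] at h6
  have h10 : V σ T - V σ0 T0 = (V σ T - V σ0 T) + (V σ0 T - V σ0 T0) := by abel
  change ‖V σ T - V σ0 T0‖ < ε
  rw [h10]
  refine (norm_add_le _ _).trans_lt ?_
  linarith

end

end H97.QN
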