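import Pool.Agent.H23.QN.Defs

namespace H97.QN

open Filter Topology Set H23.QN MeasureTheory
open scoped BigOperators

noncomputable section

abbrev BC := BoundedContinuousFunction ℝ ℝ

lemma om_ge (k : ℤ) (hk : k ≠ 0) : 30 ≤ om k := by
  unfold om
  have h1 : (1:ℝ) ≤ (k:ℝ)^2 := by
    have : (1:ℤ) ≤ k^2 := by
      have := sq_nonneg k
      have h2 : k^2 ≠ 0 := pow_ne_zero 2 hk
      omega
    exact_mod_cast this
  have h2 : 3 < Real.pi := Real.pi_gt_three
  nlinarith

lemma om_neg (k : ℤ) : om (-k) = om k := by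
  unfold om; push_cast; ring

/-- the Duhamel integral -/
def duh (w : ℝ) (y : BC) (s : ℝ) : ℝ :=
  Real.exp (30 * s) * ∫ τ in (0:ℝ)..s, Real.exp (-w * (s - τ)) * (Real.exp (-60 * τ) * y τ)

lemma duh_eq (w : ℝ) (y : BC) (s : ℝ) : duh w y s =
    Real.exp (30 * s) * (Real.exp (-w * s) *
      ∫ τ in (0:ℝ)..s, Real.exp (w * τ) * (Real.exp (-60 * τ) * y τ)) := by
  unfold duh
  have h : ∫ τ in (0:ℝ)..s, Real.exp (-w * (s - τ)) * (Real.exp (-60 * τ) * y τ) =
      Real.exp (-w * s) * ∫ τ in (0:ℝ)..s, Real.exp (w * τ) * (Real.exp (-60 * τ) * y τ) := by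
    rw [← intervalIntegral.integral_const_mul]
    apply intervalIntegral.integral_congr
    intro τ _
    simp only
    rw [← mul_assoc (Real.exp (-w * s)), ← Real.exp_add]
    congr 2
    ring
  rw [h]

lemma duh_cont (w : ℝ) (y : BC) : Continuous (duh w y) := by
  have h : duh w y = fun s => Real.exp (30 * s) * (Real.exp (-w * s) *
      ∫ τ in (0:ℝ)..s, Real.exp (w * τ) * (Real.exp (-60 * τ) * y τ)) := by
    funext s; exact duh_eq w y s
  rw [h]
  have hy : Continuous y := y.continuous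
  have h2 : Continuous fun τ : ℝ => Real.exp (w * τ) * (Real.exp (-60 * τ) * y τ) := by
    fun_prop
  have h3 : Continuous fun s : ℝ =>
      ∫ τ in (0:ℝ)..s, Real.exp (w * τ) * (Real.exp (-60 * τ) * y τ) :=
    intervalIntegral.continuous_primitive (fun a b => h2.intervalIntegrable a b) 0
  fun_prop

lemma duh_bound (w : ℝ) (hw : 30 ≤ w) (y : BC) (s : ℝ) (hs : 0 ≤ s) :
    |duh w y s| ≤ ‖y‖ / 30 := by
  unfold duh
  rw [abs_mul, abs_of_pos (Real.exp_pos _)]
  have h1 : |∫ τ in (0:ℝ)..s, Real.exp (-w * (s - τ)) * (Real.exp (-60 * τ) * y τ)|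
      ≤ ∫ τ in (0:ℝ)..s, Real.exp (-30 * s) * Real.exp (-30 * τ) * ‖y‖ := by
    rw [← Real.norm_eq_abs]
    apply intervalIntegral.norm_integral_le_of_norm_le hs
    · refine Eventually.of_forall fun τ hτ => ?_
      rw [norm_mul, norm_mul, Real.norm_of_nonneg (Real.exp_pos _).le,
        Real.norm_of_nonneg (Real.exp_pos _).le, ← mul_assoc]
      apply mul_le_mul _ (y.norm_coe_le_norm τ) (norm_nonneg _) (by positivity)
      rw [← Real.exp_add, ← Real.exp_add]
      apply Real.exp_le_exp.2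
      nlinarith [hτ.1, hτ.2]
    · apply Continuous.intervalIntegrable
      fun_prop
  have h2 : ∫ τ in (0:ℝ)..s, Real.exp (-30 * s) * Real.exp (-30 * τ) * ‖y‖ =
      Real.exp (-30 * s) * ((1 - Real.exp (-30 * s)) / 30) * ‖y‖ := by
    have h3 : ∀ τ ∈ uIcc 0 s, HasDerivAt (fun τ : ℝ => -(Real.exp (-30 * s) * Real.exp (-30 * τ) * ‖y‖ / 30))
        (Real.exp (-30 * s) * Real.exp (-30 * τ) * ‖y‖) τ := by
      intro τ _
      have h4 : HasDerivAt (fun τ : ℝ => Real.exp (-30 * τ)) (Real.exp (-30 * τ) * (-30)) τ := by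
        have := ((hasDerivAt_id τ).const_mul (-30)).exp
        simpa using this
      have h5 := (((h4.const_mul (Real.exp (-30 * s))).mul_const ‖y‖).div_const 30).neg
      have h6 : -(Real.exp (-30 * s) * (Real.exp (-30 * τ) * (-30)) * ‖y‖ / 30) =
          Real.exp (-30 * s) * Real.exp (-30 * τ) * ‖y‖ := by ring
      rw [h6] at h5
      exact h5
    rw [intervalIntegral.integral_eq_sub_of_hasDerivAt h3]
    · simp only [mul_zero, Real.exp_zero]
      ring
    · apply Continuous.intervalIntegrable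
      fun_prop
  rw [h2] at h1
  have h5 : Real.exp (30 * s) * Real.exp (-30 * s) = 1 := by
    rw [← Real.exp_add]; simp
  calc Real.exp (30 * s) * |∫ τ in (0:ℝ)..s, Real.exp (-w * (s - τ)) * (Real.exp (-60 * τ) * y τ)|
      ≤ Real.exp (30 * s) * (Real.exp (-30 * s) * ((1 - Real.exp (-30 * s)) / 30) * ‖y‖) :=
        mul_le_mul_of_nonneg_left h1 (Real.exp_pos _).le
    _ = (Real.exp (30 * s) * Real.exp (-30 * s)) * ((1 - Real.exp (-30 * s)) / 30) * ‖y‖ := by ring
    _ = ((1 - Real.exp (-30 * s)) / 30) * ‖y‖ := by rw [h5, one_mul]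
    _ ≤ (1 / 30) * ‖y‖ := by
        apply mul_le_mul_of_nonneg_right _ (norm_nonneg _)
        have := Real.exp_pos (-30 * s)
        linarith
    _ = ‖y‖ / 30 := by ring

lemma duh_sub (w : ℝ) (y z : BC) (s : ℝ) : duh w (y - z) s = duh w y s - duh w z s := by
  unfold duh
  have hy : Continuous y := y.continuous
  have hz : Continuous z := z.continuous
  rw [← mul_sub, ← intervalIntegral.integral_sub]
  · congr 1
    apply intervalIntegral.integral_congr
    intro τ _
    simp only [BoundedContinuousFunction.coe_sub, Pi.sub_apply]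
    ring
  · apply Continuous.intervalIntegrable; fun_prop
  · apply Continuous.intervalIntegrable; fun_prop

/-- the tail integral -/
def tl (y : BC) (s : ℝ) : ℝ :=
  -(Real.exp (30 * s) * ∫ τ in Ioi s, Real.exp (-60 * τ) * y τ)

lemma int_exp (s : ℝ) : IntegrableOn (fun τ : ℝ => Real.exp (-60 * τ)) (Ioi s) :=
  integrableOn_exp_mul_Ioi (by norm_num) s

lemma int_tl (y : BC) (s : ℝ) : IntegrableOn (fun τ : ℝ => Real.exp (-60 * τ) * y τ) (Ioi s) := by
  refine Integrable.mono' ((int_exp s).mul_const ‖y‖) ?_ ?_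
  · have hy : Continuous y := y.continuous
    have : Continuous fun τ : ℝ => Real.exp (-60 * τ) * y τ := by fun_prop
    exact this.aestronglyMeasurable
  · refine Eventually.of_forall fun τ => ?_
    rw [norm_mul, Real.norm_of_nonneg (Real.exp_pos _).le]
    exact mul_le_mul_of_nonneg_left (y.norm_coe_le_norm τ) (Real.exp_pos _).le

lemma tl_cont (y : BC) : Continuous (tl y) := by
  have h : tl y = fun s => -(Real.exp (30 * s) * ((∫ τ in Ioi (0:ℝ), Real.exp (-60 * τ) * y τ)
      - ∫ τ in (0:ℝ)..s, Real.exp (-60 * τ) * y τ)) := by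
    funext s
    unfold tl
    rw [← intervalIntegral.integral_Ioi_sub_Ioi' (int_tl y 0) (int_tl y s)]
    ring
  rw [h]
  have hy : Continuous y := y.continuous
  have h2 : Continuous fun τ : ℝ => Real.exp (-60 * τ) * y τ := by
    fun_prop
  have h3 : Continuous fun s : ℝ => ∫ τ in (0:ℝ)..s, Real.exp (-60 * τ) * y τ :=
    intervalIntegral.continuous_primitive (fun a b => h2.intervalIntegrable a b) 0
  fun_prop

lemma tl_bound (y : BC) (s : ℝ) (hs : 0 ≤ s) : |tl y s| ≤ ‖y‖ / 30 := by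
  unfold tl
  rw [abs_neg, abs_mul, abs_of_pos (Real.exp_pos _)]
  have h1 : |∫ τ in Ioi s, Real.exp (-60 * τ) * y τ| ≤ ∫ τ in Ioi s, Real.exp (-60 * τ) * ‖y‖ := by
    rw [← Real.norm_eq_abs]
    apply norm_integral_le_of_norm_le ((int_exp s).mul_const ‖y‖)
    refine Eventually.of_forall fun τ => ?_
    rw [norm_mul, Real.norm_of_nonneg (Real.exp_pos _).le]
    exact mul_le_mul_of_nonneg_left (y.norm_coe_le_norm τ) (Real.exp_pos _).le
  rw [integral_mul_const, integral_exp_mul_Ioi (by norm_num : (-60:ℝ) < 0)] at h1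
  have h5 : Real.exp (30 * s) * Real.exp (-60 * s) ≤ 1 := by
    rw [← Real.exp_add]
    apply Real.exp_le_one_iff.2
    linarith
  calc Real.exp (30 * s) * |∫ τ in Ioi s, Real.exp (-60 * τ) * y τ|
      ≤ Real.exp (30 * s) * (-Real.exp (-60 * s) / -60 * ‖y‖) :=
        mul_le_mul_of_nonneg_left h1 (Real.exp_pos _).le
    _ = (Real.exp (30 * s) * Real.exp (-60 * s)) * (‖y‖ / 60) := by ring
    _ ≤ 1 * (‖y‖ / 60) := mul_le_mul_of_nonneg_right h5 (by positivity)
    _ ≤ ‖y‖ / 30 := by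
        have := norm_nonneg y
        linarith

lemma tl_sub (y z : BC) (s : ℝ) : tl (y - z) s = tl y s - tl z s := by
  unfold tl
  have h : ∫ τ in Ioi s, Real.exp (-60 * τ) * (y - z) τ =
      (∫ τ in Ioi s, Real.exp (-60 * τ) * y τ) - ∫ τ in Ioi s, Real.exp (-60 * τ) * z τ := by
    rw [← integral_sub (int_tl y s) (int_tl z s)]
    apply integral_congr_ae
    refine Eventually.of_forall fun τ => ?_
    simp only [BoundedContinuousFunction.coe_sub, Pi.sub_apply]
    ring
  rw [h]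
  ring

/-- the coefficient maps of the linear operator -/
def Lc (k : ℤ) (y : BC) : BC :=
  if h : k = 0 then
    BoundedContinuousFunction.ofNormedAddCommGroup (fun s => tl y (max s 0))
      ((tl_cont y).comp (by fun_prop)) (‖y‖ / 30) (fun s => by
        rw [Real.norm_eq_abs]; exact tl_bound y _ (le_max_right _ _))
  else
    BoundedContinuousFunction.ofNormedAddCommGroup (fun s => duh (om k) y (max s 0))
      ((duh_cont (om k) y).comp (by fun_prop)) (‖y‖ / 30) (fun s => by
        rw [Real.norm_eq_abs]; exact duh_bound _ (om_ge k h) y _ (le_max_right _ _))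

lemma Lc_zero (y : BC) (s : ℝ) (hs : 0 ≤ s) : Lc 0 y s = tl y s := by
  unfold Lc
  simp [max_eq_left hs]

lemma Lc_ne (k : ℤ) (hk : k ≠ 0) (y : BC) (s : ℝ) (hs : 0 ≤ s) : Lc k y s = duh (om k) y s := by
  unfold Lc
  simp [hk, max_eq_left hs]

lemma Lc_norm (k : ℤ) (y : BC) : ‖Lc k y‖ ≤ ‖y‖ / 30 := by
  unfold Lc
  split_ifs with h
  · exact BoundedContinuousFunction.norm_ofNormedAddCommGroup_le _ (by positivity) _
  · exact BoundedContinuousFunction.norm_ofNormedAddCommGroup_le _ (by positivity) _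

lemma Lc_sub (k : ℤ) (y z : BC) : Lc k (y - z) = Lc k y - Lc k z := by
  unfold Lc
  split_ifs with h
  · ext s
    simp only [BoundedContinuousFunction.coe_ofNormedAddCommGroup, BoundedContinuousFunction.coe_sub,
      Pi.sub_apply]
    exact tl_sub y z _
  · ext s
    simp only [BoundedContinuousFunction.coe_ofNormedAddCommGroup, BoundedContinuousFunction.coe_sub,
      Pi.sub_apply]
    exact duh_sub _ y z _

lemma Lc_neg (k : ℤ) (y : BC) : Lc (-k) y = Lc k y := by
  unfold Lc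
  by_cases h : k = 0
  · subst h; simp
  · have h' : -k ≠ 0 := by simpa using h
    simp only [h, h', dif_neg, not_false_iff]
    ext s
    simp only [BoundedContinuousFunction.coe_ofNormedAddCommGroup, om_neg]

variable {ρ : ℝ} [hρ : Fact (1 ≤ ρ)]

/-- the linear operator -/
def LL (x : WA ρ BC) : WA ρ BC := WA.mk (fun k => Lc k (x k)) (by
  refine Summable.of_nonneg_of_le
    (fun k => mul_nonneg (norm_nonneg _) (wt_pos ρ k).le) (fun k => ?_) (WA.summ x)
  apply mul_le_mul_of_nonneg_right _ (wt_pos ρ k).le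
  have := Lc_norm k (x k)
  have := norm_nonneg (x k)
  linarith)

lemma LL_apply (x : WA ρ BC) (k : ℤ) : LL x k = Lc k (x k) := rfl

lemma LL_norm (x : WA ρ BC) : ‖LL x‖ ≤ ‖x‖ / 30 := by
  rw [WA.norm_def, WA.norm_def, div_eq_mul_inv, ← tsum_mul_right]
  refine (WA.summ (LL x)).tsum_le_tsum (fun k => ?_) ((WA.summ x).mul_right _)
  rw [LL_apply]
  have h1 := Lc_norm k (x k)
  have h2 := wt_pos ρ k
  calc ‖Lc k (x k)‖ * ρ ^ k.natAbs ≤ (‖x k‖ / 30) * ρ ^ k.natAbs :=
        mul_le_mul_of_nonneg_right h1 h2.le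
    _ = _ := by ring

lemma LL_sub (x y : WA ρ BC) : LL (x - y) = LL x - LL y := by
  apply WA.ext
  intro k
  rw [LL_apply, WA.sub_apply, WA.sub_apply, LL_apply, LL_apply, Lc_sub]

/-- `e^{-(ω₁-30) s}` -/
def e1 : BC := BoundedContinuousFunction.ofNormedAddCommGroup
  (fun s => Real.exp (-(om 1 - 30) * max s 0)) (by fun_prop) 1 (fun s => by
    rw [Real.norm_of_nonneg (Real.exp_pos _).le]
    apply Real.exp_le_one_iff.2
    have := om_ge 1 one_ne_zero
    have := le_max_right s 0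
    nlinarith)

lemma e1_norm : ‖e1‖ ≤ 1 := BoundedContinuousFunction.norm_ofNormedAddCommGroup_le _ zero_le_one _

/-- the free solution -/
def x0 (ρ : ℝ) [Fact (1 ≤ ρ)] (ε : ℝ) : WA ρ BC :=
  WA.mk (fun k => if k = 1 ∨ k = -1 then ε • e1 else 0) (by
    refine summable_of_ne_finset_zero (s := {1, -1}) (fun k hk => ?_)
    have : ¬ (k = 1 ∨ k = -1) := by simpa using hk
    simp [this])

lemma x0_apply (ε : ℝ) (k : ℤ) : x0 ρ ε k = if k = 1 ∨ k = -1 then ε • e1 else 0 := rfl

lemma x0_norm (ε : ℝ) (hε : 0 ≤ ε) : ‖x0 ρ ε‖ ≤ 2 * (ε * ρ) := by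
  rw [WA.norm_def, tsum_eq_sum (s := {1, -1})]
  · rw [Finset.sum_pair (by norm_num)]
    have h1 : ‖x0 ρ ε 1‖ ≤ ε := by
      rw [x0_apply]
      simp only [true_or, if_true, norm_smul, Real.norm_of_nonneg hε]
      exact mul_le_of_le_one_right hε e1_norm
    have h2 : ‖x0 ρ ε (-1)‖ ≤ ε := by
      rw [x0_apply]
      simp only [or_true, if_true, norm_smul, Real.norm_of_nonneg hε]
      exact mul_le_of_le_one_right hε e1_norm
    have h3 : 0 < ρ := lt_of_lt_of_le one_pos hρ.out
    have h4 : (1:ℤ).natAbs = 1 := rfl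
    have h5 : (-1:ℤ).natAbs = 1 := rfl
    rw [h4, h5, pow_one]
    nlinarith
  · intro k hk
    have : ¬ (k = 1 ∨ k = -1) := by simpa using hk
    rw [x0_apply]
    simp [this]

lemma mul_symm_coef (x : WA ρ BC) (hx : ∀ k, x (-k) = x k) (k : ℤ) : (x * x) (-k) = (x * x) k := by
  rw [WA.mul_apply, WA.mul_apply, ← (Equiv.neg ℤ).tsum_eq]
  refine tsum_congr (fun j => ?_)
  simp only [Equiv.neg_apply]
  have : -k - -j = -(k - j) := by ring
  rw [this, hx, hx]

theorem C1 : S_C1 := by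
  intro ρ _ ε hε hερ
  set r : ℝ := 4 * (ε * ρ) with hr
  have hρ1 : 1 ≤ ρ := Fact.out
  have hr0 : 0 ≤ r := by positivity
  have hr1 : r ≤ 1 := by linarith
  let Φ : WA ρ BC → WA ρ BC := fun x => x0 ρ ε + LL (x * x)
  let S : Set (WA ρ BC) := {x | ‖x‖ ≤ r} ∩ {x | ∀ k : ℤ, x (-k) = x k}
  have hSc : IsClosed S := by
    apply IsClosed.inter
    · exact isClosed_le continuous_norm continuous_const
    · have : {x : WA ρ BC | ∀ k : ℤ, x (-k) = x k} = ⋂ k : ℤ, {x : WA ρ BC | x (-k) = x k} := by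
        ext x; simp
      rw [this]
      exact isClosed_iInter fun k => isClosed_eq (WA.continuous_coef _) (WA.continuous_coef _)
  have hmaps : MapsTo Φ S S := by
    rintro x ⟨hx1, hx2⟩
    refine ⟨?_, fun k => ?_⟩
    · have h1 : ‖Φ x‖ ≤ ‖x0 ρ ε‖ + ‖LL (x * x)‖ := norm_add_le _ _
      have h2 := x0_norm (ρ := ρ) ε hε.le
      have h3 := LL_norm (x * x)
      have h4 := WA.norm_mul_le' x x
      have h5 : ‖x‖ ≤ r := hx1
      have h6 := norm_nonneg x
      change ‖Φ x‖ ≤ r
      nlinarith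
    · simp only [Φ]
      rw [WA.add_apply, WA.add_apply, LL_apply, LL_apply, Lc_neg, mul_symm_coef x hx2,
        x0_apply, x0_apply]
      congr 1
      have : (-k = 1 ∨ -k = -1) ↔ (k = 1 ∨ k = -1) := by omega
      simp only [this]
  have hlip : ∀ x ∈ S, ∀ y ∈ S, dist (Φ x) (Φ y) ≤ (1/2 : ℝ) * dist x y := by
    rintro x ⟨hx1, -⟩ y ⟨hy1, -⟩
    rw [dist_eq_norm, dist_eq_norm]
    have h1 : Φ x - Φ y = LL (x * x - y * y) := by
      rw [LL_sub]; simp only [Φ]; abel
    have h2 : x * x - y * y = x * (x - y) + (x - y) * y := by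
      rw [mul_sub, sub_mul]; abel
    have h3 := LL_norm (x * x - y * y)
    have h4 : ‖x * x - y * y‖ ≤ ‖x‖ * ‖x - y‖ + ‖x - y‖ * ‖y‖ := by
      rw [h2]
      exact (norm_add_le _ _).trans (add_le_add (WA.norm_mul_le' _ _) (WA.norm_mul_le' _ _))
    have h5 : ‖x‖ ≤ r := hx1
    have h6 : ‖y‖ ≤ r := hy1
    have h7 := norm_nonneg (x - y)
    rw [h1]
    nlinarith
  have hcontr : ContractingWith (1/2) (hmaps.restrict Φ S S) := by
    refine ⟨by rw [← NNReal.coe_lt_coe]; norm_num, ?_⟩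
    refine LipschitzWith.of_dist_le_mul fun x y => ?_
    have := hlip x x.2 y y.2
    simpa [Subtype.dist_eq] using this
  have h0 : (0 : WA ρ BC) ∈ S := ⟨by simpa using hr0, fun k => rfl⟩
  obtain ⟨W, hWS, hW, -⟩ := ContractingWith.exists_fixedPoint' hSc.isComplete hmaps hcontr h0
    (edist_ne_top _ _)
  have hWeq : ∀ k : ℤ, W k = x0 ρ ε k + Lc k ((W * W) k) := by
    intro k
    have h1 : Φ W = W := hW
    conv_lhs => rw [← h1]
    rfl
  refine ⟨W, hWS.1, hWS.2, ?_, ?_⟩
  · intro k hk s hs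
    rw [hWeq k, BoundedContinuousFunction.coe_add, Pi.add_apply, Lc_ne k hk _ s hs, x0_apply]
    unfold duh
    rw [mul_add]
    congr 1
    by_cases h : k = 1 ∨ k = -1
    · rw [if_pos h, if_pos h]
      have h2 : om k = om 1 := by
        rcases h with rfl | rfl
        · rfl
        · exact om_neg 1
      rw [h2, BoundedContinuousFunction.coe_smul]
      change ε * Real.exp (-(om 1 - 30) * max s 0) = _
      rw [max_eq_left hs, ← mul_assoc, ← Real.exp_add, mul_comm]
      congr 2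
      ring
    · rw [if_neg h, if_neg h]
      simp
  · intro s hs
    rw [hWeq 0, BoundedContinuousFunction.coe_add, Pi.add_apply, Lc_zero _ s hs, x0_apply]
    unfold tl
    simp

end

end H97.QN
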