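import Pool.Agent.H97.QN.LIN

namespace H97.QN

open Filter Topology Set H23.QN

noncomputable section

theorem FW (hC : S_C) (hB : S_B) (hR : S_R) (h1 : S_BR1) (h2 : S_BR2) : S_FW := by
  intro ν hν ε hε
  by_contra hcon
  push Not at hcon
  haveI : Fact (1 ≤ ν) := ⟨hν⟩
  haveI : Fact (1 ≤ 2 * ν) := ⟨by linarith⟩
  obtain ⟨U, a, ha, hU, hdec, hreal, hlim⟩ := hC (2 * ν) (ε / 2) (by positivity)
  -- the weight comparison
  have hw : ∀ k : ℤ, ν ^ k.natAbs ≤ (2 * ν) ^ k.natAbs := fun k =>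
    pow_le_pow_left₀ (by linarith) (by linarith) _
  -- synthesis of real functions
  have hf : ∀ σ : ℝ, 0 ≤ σ → ∃ f : C(UnitAddCircle, ℂ), (∀ k : ℤ, fourierCoeff f k = U σ k) ∧
      ∀ x, (f x).im = 0 := fun σ hσ => h2 (2 * ν) (U σ) (hreal σ hσ)
  have hsum : ∀ σ : ℝ, 0 ≤ σ → ∀ f : C(UnitAddCircle, ℂ), (∀ k : ℤ, fourierCoeff f k = U σ k) →
      InA ν f ∧ nrmA ν f ≤ ‖U σ‖ := by
    intro σ hσ f hfk
    have h3 : ∀ k : ℤ, ‖fourierCoeff f k‖ * ν ^ k.natAbs ≤ ‖U σ k‖ * (2 * ν) ^ k.natAbs := by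
      intro k
      rw [hfk k]
      exact mul_le_mul_of_nonneg_left (hw k) (norm_nonneg _)
    have h4 : InA ν f := Summable.of_nonneg_of_le (fun k => by positivity) h3 (WA.summ (U σ))
    exact ⟨h4, h4.tsum_le_tsum h3 (WA.summ (U σ))⟩
  -- the forward solutions
  have hsol : ∀ σ : ℝ, 0 ≤ σ → ∃ u : ℝ → C(UnitAddCircle, ℂ), IsSol ν (Ici 0) u ∧
      (∀ k : ℤ, fourierCoeff (u 0) k = U σ k) ∧
      Tendsto (fun t => nrmA ν (u t)) atTop (𝓝 0) := by
    intro σ hσ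
    obtain ⟨f, hfk, hfr⟩ := hf σ hσ
    obtain ⟨h3, h4⟩ := hsum σ hσ f hfk
    have h5 : nrmA ν f < ε := by
      have h6 := hdec σ hσ
      have h7 : Real.exp (-30 * σ) ≤ 1 := Real.exp_le_one_iff.2 (by linarith)
      have h8 : ε / 2 * Real.exp (-30 * σ) ≤ ε / 2 := mul_le_of_le_one_right (by positivity) h7
      linarith
    obtain ⟨u, hu1, hu2, hu3⟩ := hcon f hfr h3 h5
    exact ⟨u, hu1, by rw [hu2]; exact hfk, hu3⟩
  choose! u hu1 hu2 hu3 using hsol
  -- the quarter plane function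
  have hmem : ∀ σ : ℝ, 0 ≤ σ → ∀ T : ℝ, 0 ≤ T → InA ν (u σ T) := fun σ hσ T hT =>
    (hu1 σ hσ).mem T hT
  classical
  let V : ℝ → ℝ → WA ν ℂ := fun σ T =>
    if h : 0 ≤ σ ∧ 0 ≤ T then WA.mk (fun k => fourierCoeff (u σ T) k) (hmem σ h.1 T h.2) else 0
  have hV : ∀ σ : ℝ, 0 ≤ σ → ∀ T : ℝ, 0 ≤ T → ∀ k : ℤ, V σ T k = fourierCoeff (u σ T) k := by
    intro σ hσ T hT k
    simp only [V, dif_pos (And.intro hσ hT)]
    rfl
  have hVn : ∀ σ : ℝ, 0 ≤ σ → ∀ T : ℝ, 0 ≤ T → ‖V σ T‖ = nrmA ν (u σ T) := by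
    intro σ hσ T hT
    rw [WA.norm_def]
    exact tsum_congr (fun k => by rw [hV σ hσ T hT k])
  have hsub : ∀ f g : C(UnitAddCircle, ℂ), ∀ k : ℤ,
      fourierCoeff (f - g : C(UnitAddCircle, ℂ)) k = fourierCoeff f k - fourierCoeff g k := by
    intro f g k
    have hfi : MeasureTheory.Integrable (fun t : UnitAddCircle => (fourier (-k) t : ℂ) • f t)
        AddCircle.haarAddCircle := by
      apply Continuous.integrable_of_hasCompactSupport
      · exact (fourier (-k)).continuous.smul f.continuous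
      · exact HasCompactSupport.of_compactSpace _
    have hgi : MeasureTheory.Integrable (fun t : UnitAddCircle => (fourier (-k) t : ℂ) • g t)
        AddCircle.haarAddCircle := by
      apply Continuous.integrable_of_hasCompactSupport
      · exact (fourier (-k)).continuous.smul g.continuous
      · exact HasCompactSupport.of_compactSpace _
    unfold fourierCoeff
    rw [← MeasureTheory.integral_sub hfi hgi]
    congr 1
    funext t
    rw [ContinuousMap.coe_sub, Pi.sub_apply, smul_sub]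
  have hVd : ∀ σ : ℝ, 0 ≤ σ → ∀ T : ℝ, 0 ≤ T → ∀ S : ℝ, 0 ≤ S →
      ‖V σ T - V σ S‖ = nrmA ν (u σ T - u σ S) := by
    intro σ hσ T hT S hS
    rw [WA.norm_def]
    exact tsum_congr (fun k => by
      rw [WA.sub_apply, hV σ hσ T hT k, hV σ hσ S hS k, hsub])
  have hmul : ∀ σ : ℝ, 0 ≤ σ → ∀ T : ℝ, 0 ≤ T → ∀ k : ℤ,
      (V σ T * V σ T) k = fourierCoeff (u σ T * u σ T : C(UnitAddCircle, ℂ)) k := by
    intro σ hσ T hT k
    have h3 : Summable fun k : ℤ => ‖fourierCoeff (u σ T) k‖ := by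
      refine Summable.of_nonneg_of_le (fun k => norm_nonneg _) (fun k => ?_) (hmem σ hσ T hT)
      exact le_mul_of_one_le_right (norm_nonneg _) (one_le_pow₀ hν)
    rw [h1 (u σ T) h3 k, WA.mul_apply]
    exact tsum_congr (fun j => by rw [hV σ hσ T hT, hV σ hσ T hT])
  have hschr : ∀ σ : ℝ, 0 ≤ σ → IsSchr (V σ) := by
    intro σ hσ
    refine ⟨?_, ?_⟩
    · intro T hT
      have hT : 0 ≤ T := hT
      rw [ContinuousWithinAt, tendsto_iff_norm_sub_tendsto_zero]
      refine ((hu1 σ hσ).cont T hT).congr' ?_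
      filter_upwards [self_mem_nhdsWithin] with S hS
      exact (hVd σ hσ S hS T hT).symm
    · intro T hT k
      have h3 := ((hu1 σ hσ).eqn T hT k).mono (Ici_subset_Ici.2 hT)
      have h4 : HasDerivWithinAt (fun y => V σ y k)
          (Complex.I * (-(4 * (Real.pi : ℂ) ^ 2 * (k : ℂ) ^ 2 * fourierCoeff (u σ T) k)
            + fourierCoeff (u σ T * u σ T : C(UnitAddCircle, ℂ)) k)) (Ici T) T := by
        refine h3.congr (fun y hy => hV σ hσ y (hT.trans hy) k) (hV σ hσ T hT k)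
      refine h4.congr_deriv ?_
      rw [hmul σ hσ T hT k, hV σ hσ T hT k]
      unfold om
      push_cast
      ring
  have hQP : IsQP V := hB ν (2 * ν) (le_refl _) U V hU hschr (fun σ hσ k => by
    rw [hV σ hσ 0 (le_refl _) k, hu2 σ hσ k])
  have ha0 : a = 0 := by
    refine hR ν V hQP (ε / 2) a ?_ ?_ ?_
    · intro σ hσ
      rw [hVn σ hσ 0 (le_refl _)]
      exact (hsum σ hσ (u σ 0) (hu2 σ hσ)).2.trans (hdec σ hσ)
    · refine (hu3 0 (le_refl _)).congr' ?_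
      filter_upwards [eventually_ge_atTop (0:ℝ)] with T hT
      exact (hVn 0 (le_refl _) T hT).symm
    · refine hlim.congr' ?_
      filter_upwards [eventually_ge_atTop (0:ℝ)] with σ hσ
      rw [hV σ hσ 0 (le_refl _) 1, hu2 σ hσ 1]
  exact ha ha0

end

end H97.QN
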