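import Pool.Agent.H23.QN.AuxQP

namespace H97.QN

open Filter Topology Set H23.QN

noncomputable section

variable {ν : ℝ} [Fact (1 ≤ ν)]

lemma lin_full {c : ℂ} {L : ℝ} {P : ℝ → WA ν ℂ} (hP : ContinuousOn P (Icc 0 L))
    (hd : ∀ k : ℤ, ∀ t ∈ Ico 0 L, HasDerivWithinAt (fun s => P s k)
      (c * (-((om k : ℂ) * P t k) + (P t * P t) k)) (Ici t) t) :
    IsLin c L P (fun t => c • (P t * P t)) where
  contU := hP
  contN := (hP.mul hP).const_smul c
  deriv := by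
    intro k t ht
    refine (hd k t ht).congr_deriv ?_
    rw [WA.smul_apply, smul_eq_mul]
    ring

lemma lin_mf {c : ℂ} {L : ℝ} {P : ℝ → WA ν ℂ} (hP : ContinuousOn P (Icc 0 L))
    (hd : ∀ k : ℤ, ∀ t ∈ Ico 0 L, HasDerivWithinAt (fun s => P s k)
      (c * (-((om k : ℂ) * P t k) + (P t * P t) k)) (Ici t) t) :
    IsLin c L (fun t => WA.mf (P t))
      (fun t => c • ((2 * P t 0) • WA.mf (P t) + WA.mf (WA.mf (P t) * WA.mf (P t)))) where
  contU := WA.continuous_mf.comp_continuousOn hP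
  contN := by
    have h0 : ContinuousOn (fun t => P t 0) (Icc 0 L) :=
      (WA.continuous_coef 0).comp_continuousOn hP
    have h1 : ContinuousOn (fun t => WA.mf (P t)) (Icc 0 L) :=
      WA.continuous_mf.comp_continuousOn hP
    have h2 : ContinuousOn (fun t => WA.mf (WA.mf (P t) * WA.mf (P t))) (Icc 0 L) :=
      WA.continuous_mf.comp_continuousOn (h1.mul h1)
    exact (((continuousOn_const.mul h0).smul h1).add h2).const_smul c
  deriv := by
    intro k t ht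
    by_cases hk : k = 0
    · subst hk
      have h1 : (fun s => WA.mf (P s) 0) = fun _ => (0:ℂ) := by
        funext s; exact WA.mf_zero_coef _
      rw [h1]
      refine (hasDerivWithinAt_const t (Ici t) (0:ℂ)).congr_deriv ?_
      simp
    · have h1 : (fun s => WA.mf (P s) k) = fun s => P s k := by
        funext s; exact WA.mf_of_ne _ hk
      rw [h1]
      refine (hd k t ht).congr_deriv ?_
      rw [WA.sq_coef _ hk, WA.smul_apply, WA.add_apply, WA.smul_apply, WA.mf_of_ne _ hk,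
        WA.mf_of_ne _ hk, smul_eq_mul, smul_eq_mul]
      ring

lemma shift_deriv {f : ℝ → ℂ} {f' : ℂ} {a t : ℝ} (h : HasDerivWithinAt f f' (Ici (a + t)) (a + t)) :
    HasDerivWithinAt (fun s => f (a + s)) f' (Ici t) t := by
  have h1 : HasDerivWithinAt (fun s : ℝ => a + s) 1 (Ici t) t :=
    ((hasDerivAt_id t).const_add a).hasDerivWithinAt
  have hm : MapsTo (fun s : ℝ => a + s) (Ici t) (Ici (a + t)) := fun s hs => by
    have : t ≤ s := hs
    show a + t ≤ a + s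
    linarith
  have h2 := HasDerivWithinAt.scomp t h h1 hm
  rw [one_smul] at h2
  exact h2

variable {V : ℝ → ℝ → WA ν ℂ}

lemma qp_h (hV : IsQP V) {a T : ℝ} (ha : 0 ≤ a) (hT : 0 ≤ T) (L : ℝ) :
    ContinuousOn (fun t => V (a + t) T) (Icc 0 L) ∧
    ∀ k : ℤ, ∀ t ∈ Ico 0 L, HasDerivWithinAt (fun s => V (a + s) T k)
      ((1:ℂ) * (-((om k : ℂ) * V (a + t) T k) + (V (a + t) T * V (a + t) T) k)) (Ici t) t := by
  constructor
  · have h1 := hV.contH hT
    have h2 : ContinuousOn (fun t : ℝ => a + t) (Icc 0 L) := by fun_prop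
    exact ContinuousOn.comp (g := fun x => V x T) h1 h2 (fun t ht => by
      have := ht.1
      show 0 ≤ a + t
      linarith)
  · intro k t ht
    have h1 := shift_deriv (f := fun x => V x T k) (hV.heat T hT (a + t) (by have := ht.1; linarith) k)
    exact h1.congr_deriv (by ring)

lemma qp_v (hV : IsQP V) {a σ : ℝ} (ha : 0 ≤ a) (hσ : 0 ≤ σ) (L : ℝ) :
    ContinuousOn (fun t => V σ (a + t)) (Icc 0 L) ∧
    ∀ k : ℤ, ∀ t ∈ Ico 0 L, HasDerivWithinAt (fun s => V σ (a + s) k)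
      (Complex.I * (-((om k : ℂ) * V σ (a + t) k) + (V σ (a + t) * V σ (a + t)) k)) (Ici t) t := by
  constructor
  · have h1 := hV.contV hσ
    have h2 : ContinuousOn (fun t : ℝ => a + t) (Icc 0 L) := by fun_prop
    exact ContinuousOn.comp (g := fun x => V σ x) h1 h2 (fun t ht => by
      have := ht.1
      show 0 ≤ a + t
      linarith)
  · intro k t ht
    exact shift_deriv (f := fun x => V σ x k) (hV.schr σ hσ (a + t) (by have := ht.1; linarith) k)

lemma norm_N_le (c : ℂ) (hc : ‖c‖ ≤ 1) (P : WA ν ℂ) {b : ℝ} (h0 : ‖P 0‖ ≤ 1 / 2)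
    (hb : ‖WA.mf P‖ ≤ b) :
    ‖c • ((2 * P 0) • WA.mf P + WA.mf (WA.mf P * WA.mf P))‖ ≤ (1 + b) * ‖WA.mf P‖ := by
  rw [norm_smul]
  have h1 : ‖(2 * P 0) • WA.mf P‖ ≤ 1 * ‖WA.mf P‖ := by
    rw [norm_smul, norm_mul]
    apply mul_le_mul_of_nonneg_right _ (norm_nonneg _)
    have : ‖(2:ℂ)‖ = 2 := by norm_num
    rw [this]; linarith
  have h2 : ‖WA.mf (WA.mf P * WA.mf P)‖ ≤ b * ‖WA.mf P‖ :=
    (WA.norm_mf_le _).trans ((WA.norm_mul_le' _ _).trans
      (mul_le_mul_of_nonneg_right hb (norm_nonneg _)))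
  have h3 := norm_add_le ((2 * P 0) • WA.mf P) (WA.mf (WA.mf P * WA.mf P))
  have h4 : 0 ≤ ‖(2 * P 0) • WA.mf P + WA.mf (WA.mf P * WA.mf P)‖ := norm_nonneg _
  calc ‖c‖ * ‖(2 * P 0) • WA.mf P + WA.mf (WA.mf P * WA.mf P)‖
      ≤ 1 * ‖(2 * P 0) • WA.mf P + WA.mf (WA.mf P * WA.mf P)‖ :=
        mul_le_mul_of_nonneg_right hc h4
    _ ≤ (1 + b) * ‖WA.mf P‖ := by linarith

/-- restriction of a linear solution to a shorter interval -/
lemma IsLin.short {c : ℂ} {L t : ℝ} {U N : ℝ → WA ν ℂ} (h : IsLin c L U N) (ht : t ≤ L) :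
    IsLin c t U N where
  contU := h.contU.mono (Icc_subset_Icc_right ht)
  contN := h.contN.mono (Icc_subset_Icc_right ht)
  deriv := fun k s hs => h.deriv k s ⟨hs.1, hs.2.trans_le ht⟩

/-- general growth estimate for the mean-free part -/
lemma mf_growth (hG : S_G1) (hB : S_BT) {c : ℂ} (hc : ‖c‖ ≤ 1) {L β b : ℝ} (hL : 0 ≤ L)
    (hb : 0 ≤ b) (hβ : ∀ k : ℤ, k ≠ 0 → β ≤ c.re * om k)
    {P : ℝ → WA ν ℂ} (hP : ContinuousOn P (Icc 0 L))
    (hd : ∀ k : ℤ, ∀ t ∈ Ico 0 L, HasDerivWithinAt (fun s => P s k)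
      (c * (-((om k : ℂ) * P t k) + (P t * P t) k)) (Ici t) t)
    (hm : ∀ t ∈ Icc 0 L, ‖P t 0‖ ≤ 1 / 2)
    (h0 : ∀ t ∈ Icc 0 L, ‖WA.mf (P 0)‖ * Real.exp ((1 + b - β) * t) < b) :
    ∀ t ∈ Icc 0 L, ‖WA.mf (P t)‖ ≤ ‖WA.mf (P 0)‖ * Real.exp ((1 + b - β) * t) := by
  have hlin := lin_mf hP hd
  have key : ∀ t ∈ Icc 0 L, (∀ τ ∈ Icc 0 t, ‖WA.mf (P τ)‖ ≤ b) →
      ‖WA.mf (P t)‖ ≤ ‖WA.mf (P 0)‖ * Real.exp ((1 + b - β) * t) := by
    intro t ht hτ
    refine hG ν c t β (1 + b) _ _ ht.1 (by linarith) (IsLin.short hlin ht.2) ?_ ?_ t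
      ⟨ht.1, le_refl _⟩
    · intro k
      by_cases hk : k = 0
      · left
        subst hk
        intro s _
        simp
      · exact Or.inr (hβ k hk)
    · intro s hs
      exact norm_N_le c hc (P s) (hm s ⟨hs.1, hs.2.trans ht.2⟩) (hτ s hs)
  have hboot : ∀ t ∈ Icc 0 L, ‖WA.mf (P t)‖ < b := by
    refine hB (fun t => ‖WA.mf (P t)‖) L b hL (hlin.contU.norm) ?_ ?_
    · have := h0 0 ⟨le_refl _, hL⟩
      simpa using this
    · intro t ht hτ
      exact (key t ht hτ).trans_lt (h0 t ht)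
  intro t ht
  exact key t ht (fun τ hτ => (hboot τ ⟨hτ.1, hτ.2.trans ht.2⟩).le)

theorem HD (hG : S_G1) (hB : S_BT) : S_HD := by
  intro ν _ V hV T σ0 σ1 hT hσ0 h01 hm hmf σ hσ
  obtain ⟨hc, hd⟩ := qp_h hV hσ0 hT (σ1 - σ0)
  have h1 := mf_growth hG hB (c := 1) (by simp) (L := σ1 - σ0) (β := 39) (b := 2)
    (by linarith) (by norm_num)
    (fun k hk => by
      have := om_one_gt
      have := om_ge hk
      simp only [Complex.one_re, one_mul]
      linarith) hc hd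
    (fun t ht => hm (σ0 + t) ⟨by linarith [ht.1], by linarith [ht.2]⟩)
    (fun t ht => by
      have h2 : Real.exp ((1 + 2 - 39) * t) ≤ 1 := Real.exp_le_one_iff.2 (by linarith [ht.1])
      have h3 : ‖WA.mf (V (σ0 + 0) T)‖ ≤ 1 := by rw [add_zero]; exact hmf
      have h4 := norm_nonneg (WA.mf (V (σ0 + 0) T))
      have h5 := Real.exp_pos ((1 + 2 - 39) * t)
      nlinarith)
    (σ - σ0) ⟨by linarith [hσ.1], by linarith [hσ.2]⟩
  simp only [add_zero, add_sub_cancel] at h1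
  refine h1.trans ?_
  apply mul_le_mul_of_nonneg_left _ (norm_nonneg _)
  apply Real.exp_le_exp.2
  nlinarith [hσ.1]

theorem VG (hG : S_G1) (hB : S_BT) : S_VG := by
  intro ν _ V hV σ T0 T1 hσ hT0 h01 h8 hm hmf T hT
  obtain ⟨hc, hd⟩ := qp_v hV hT0 hσ (T1 - T0)
  have h1 := mf_growth hG hB (c := Complex.I) (by simp) (L := T1 - T0) (β := 0) (b := 1)
    (by linarith) (by norm_num)
    (fun k hk => by simp) hc hd
    (fun t ht => hm (T0 + t) ⟨by linarith [ht.1], by linarith [ht.2]⟩)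
    (fun t ht => by
      have h2 : Real.exp ((1 + 1 - 0) * t) ≤ Real.exp 16 :=
        Real.exp_le_exp.2 (by linarith [ht.2])
      have h3 : ‖WA.mf (V σ (T0 + 0))‖ ≤ Real.exp (-17) := by rw [add_zero]; exact hmf
      have h4 := norm_nonneg (WA.mf (V σ (T0 + 0)))
      have h5 : Real.exp (-17) * Real.exp 16 < 1 := by
        rw [← Real.exp_add]
        rw [← Real.exp_zero]
        exact Real.exp_lt_exp.2 (by norm_num)
      calc ‖WA.mf (V σ (T0 + 0))‖ * Real.exp ((1 + 1 - 0) * t)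
          ≤ Real.exp (-17) * Real.exp 16 :=
            mul_le_mul h3 h2 (Real.exp_pos _).le (Real.exp_pos _).le
        _ < 1 := h5)
    (T - T0) ⟨by linarith [hT.1], by linarith [hT.2]⟩
  simp only [add_zero, add_sub_cancel] at h1
  refine h1.trans ?_
  apply mul_le_mul_of_nonneg_left _ (norm_nonneg _)
  apply Real.exp_le_exp.2
  linarith [hT.2]

/-- general control of the full solution -/
lemma full_ctrl (hG : S_G1) (hB : S_BT) {c : ℂ} (hc : ‖c‖ ≤ 1) (hc0 : 0 ≤ c.re) {L δ : ℝ}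
    (hL : 0 ≤ L) (hδ : 0 < δ) {P : ℝ → WA ν ℂ} (hP : ContinuousOn P (Icc 0 L))
    (hd : ∀ k : ℤ, ∀ t ∈ Ico 0 L, HasDerivWithinAt (fun s => P s k)
      (c * (-((om k : ℂ) * P t k) + (P t * P t) k)) (Ici t) t)
    (h0 : ‖P 0‖ ≤ δ) (h4 : 4 * δ * L ≤ 1) : ∀ t ∈ Icc 0 L, ‖P t‖ < 2 * δ := by
  have hlin := lin_full hP hd
  refine hB (fun t => ‖P t‖) L (2 * δ) hL hP.norm (by linarith) ?_
  intro t ht hτ
  have h1 := hG ν c t 0 (2 * δ) _ _ ht.1 (by linarith) (IsLin.short hlin ht.2)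
    (fun k => Or.inr (mul_nonneg hc0 (om_nonneg k))) (fun s hs => by
      rw [norm_smul]
      have h2 := WA.norm_mul_le' (P s) (P s)
      have h3 : ‖P s‖ ≤ 2 * δ := hτ s hs
      have h5 := norm_nonneg (P s)
      have h6 := norm_nonneg (P s * P s)
      calc ‖c‖ * ‖P s * P s‖ ≤ 1 * ‖P s * P s‖ := mul_le_mul_of_nonneg_right hc h6
        _ ≤ ‖P s‖ * ‖P s‖ := by linarith
        _ ≤ 2 * δ * ‖P s‖ := mul_le_mul_of_nonneg_right h3 h5) t ⟨ht.1, le_refl _⟩
  have h7 : Real.exp ((2 * δ - 0) * t) ≤ Real.exp (1 / 2) := by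
    apply Real.exp_le_exp.2
    have : (2 * δ - 0) * t ≤ 2 * δ * L := by nlinarith [ht.2]
    linarith
  have h8 : Real.exp (1 / 2) < 2 := by
    have h9 : Real.exp (1 / 2) * Real.exp (1 / 2) = Real.exp 1 := by
      rw [← Real.exp_add]; norm_num
    have h10 := Real.exp_one_lt_d9
    have h11 := Real.exp_pos (1 / 2)
    nlinarith
  calc ‖P t‖ ≤ ‖P 0‖ * Real.exp ((2 * δ - 0) * t) := h1
    _ ≤ δ * Real.exp (1 / 2) := mul_le_mul h0 h7 (Real.exp_pos _).le hδ.le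
    _ < δ * 2 := mul_lt_mul_of_pos_left h8 hδ
    _ = 2 * δ := by ring

theorem LC (hG : S_G1) (hB : S_BT) : S_LC := by
  intro ν _ V hV T δ hT hδ h0 σ hσ h4
  obtain ⟨hc, hd⟩ := qp_h hV (le_refl 0) hT σ
  have := full_ctrl hG hB (c := 1) (by simp) (by simp) hσ hδ hc hd (by rw [add_zero]; exact h0) h4
    σ ⟨hσ, le_refl _⟩
  simp only [zero_add] at this
  exact this.le

theorem RC (hG : S_G1) (hB : S_BT) : S_RC := by
  intro ν _ V hV σ T κ hσ hT hκ h0 h4
  obtain ⟨hc, hd⟩ := qp_v hV (le_refl 0) hσ T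
  have := full_ctrl hG hB (c := Complex.I) (by simp) (by simp) hT hκ hc hd
    (by rw [add_zero]; exact h0) h4 T ⟨hT, le_refl _⟩
  simp only [zero_add] at this
  exact this.le

end

end H97.QN
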