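import Pool.Agent.H97.QN.LIN

namespace H97.QN

open Filter Topology Set H23.QN

noncomputable section

theorem RA (h : S_RC) : S_RA := by
  intro ν _ V hV C a hC ha T hT
  set w : ℝ := om 1 with hw
  have hw40 : w < 40 := om_one_lt
  set C' : ℝ := max C 1 with hC'
  have hC1 : 1 ≤ C' := le_max_right _ _
  have hCC : C ≤ C' := le_max_left _ _
  -- the key estimate
  have key : ∀ᶠ σ : ℝ in atTop, ‖(Real.exp (w * σ) : ℂ) * V σ T 1
      - Complex.exp (-(Complex.I * (w : ℂ) * T)) * ((Real.exp (w * σ) : ℂ) * V σ 0 1)‖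
      ≤ 4 * C' ^ 2 * T * Real.exp ((w - 60) * σ) := by
    have h1 : Tendsto (fun σ : ℝ => 4 * (C' * Real.exp (-30 * σ)) * T) atTop (𝓝 (4 * (C' * 0) * T)) := by
      have h2 : Tendsto (fun σ : ℝ => Real.exp (-30 * σ)) atTop (𝓝 0) := by
        have : Tendsto (fun σ : ℝ => -30 * σ) atTop atBot :=
          tendsto_id.const_mul_atTop_of_neg (by norm_num)
        exact Real.tendsto_exp_atBot.comp this
      exact ((h2.const_mul C').const_mul 4).mul_const T
    have h3 : ∀ᶠ σ : ℝ in atTop, 4 * (C' * Real.exp (-30 * σ)) * T < 1 :=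
      h1.eventually_lt_const (by simp)
    filter_upwards [h3, eventually_ge_atTop (0:ℝ)] with σ hσ1 hσ0
    set κ : ℝ := C' * Real.exp (-30 * σ) with hκ
    have hκpos : 0 < κ := by positivity
    have hV0 : ‖V σ 0‖ ≤ κ := (hC σ hσ0).trans (mul_le_mul_of_nonneg_right hCC (Real.exp_pos _).le)
    have hVy : ∀ y ∈ Icc 0 T, ‖V σ y‖ ≤ 2 * κ := by
      intro y hy
      apply h ν V hV σ y κ hσ0 hy.1 hκpos hV0
      have : 4 * κ * y ≤ 4 * κ * T := by
        apply mul_le_mul_of_nonneg_left hy.2 (by positivity)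
      linarith
    let F : ℝ → ℂ := fun y => Complex.exp (Complex.I * (w : ℂ) * y) * V σ y 1
    have hFc : ContinuousOn F (Icc 0 T) := by
      have h4 : ContinuousOn (fun y : ℝ => Complex.exp (Complex.I * (w : ℂ) * y)) (Icc 0 T) := by
        fun_prop
      exact h4.mul ((hV.contV0 hσ0 1).mono (fun y hy => hy.1))
    have hFd : ∀ y ∈ Ico 0 T, HasDerivWithinAt F
        (Complex.exp (Complex.I * (w : ℂ) * y) * (Complex.I * (V σ y * V σ y) 1)) (Ici y) y := by
      intro y hy
      have h5 : HasDerivWithinAt (fun y : ℝ => Complex.exp (Complex.I * (w : ℂ) * y))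
          (Complex.exp (Complex.I * (w : ℂ) * y) * (Complex.I * (w : ℂ))) (Ici y) y := by
        have h6 : HasDerivAt (fun y : ℝ => Complex.I * (w : ℂ) * (y : ℂ)) (Complex.I * (w : ℂ)) y := by
          have := (Complex.ofRealCLM.hasDerivAt (x := y)).const_mul (Complex.I * (w : ℂ))
          simpa using this
        exact h6.cexp.hasDerivWithinAt
      have h7 := hV.schr σ hσ0 y hy.1 1
      refine (h5.mul h7).congr_deriv ?_
      ring
    have hFb : ∀ y ∈ Ico 0 T, ‖Complex.exp (Complex.I * (w : ℂ) * y) *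
        (Complex.I * (V σ y * V σ y) 1)‖ ≤ (2 * κ) ^ 2 := by
      intro y hy
      have h8 : ‖Complex.exp (Complex.I * (w : ℂ) * y)‖ = 1 := by
        have : Complex.I * (w : ℂ) * (y : ℂ) = ((w * y : ℝ) : ℂ) * Complex.I := by
          push_cast; ring
        rw [this, Complex.norm_exp_ofReal_mul_I]
      rw [norm_mul, norm_mul, h8, Complex.norm_I, one_mul, one_mul]
      have h9 := hVy y ⟨hy.1, hy.2.le⟩
      have h10 := norm_nonneg (V σ y)
      calc ‖(V σ y * V σ y) 1‖ ≤ ‖V σ y * V σ y‖ := WA.coef_le _ 1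
        _ ≤ ‖V σ y‖ * ‖V σ y‖ := WA.norm_mul_le' _ _
        _ ≤ (2 * κ) ^ 2 := by nlinarith
    have h11 := norm_image_sub_le_of_norm_deriv_right_le_segment hFc hFd hFb T ⟨hT, le_refl _⟩
    have h12 : F 0 = V σ 0 1 := by simp [F]
    have h13 : (Real.exp (w * σ) : ℂ) * V σ T 1
        - Complex.exp (-(Complex.I * (w : ℂ) * T)) * ((Real.exp (w * σ) : ℂ) * V σ 0 1)
        = (Real.exp (w * σ) : ℂ) * (Complex.exp (-(Complex.I * (w : ℂ) * T)) * (F T - F 0)) := by
      rw [h12]
      have h14 : Complex.exp (-(Complex.I * (w : ℂ) * T)) * F T = V σ T 1 := by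
        simp only [F]
        rw [← mul_assoc, ← Complex.exp_add]
        simp
      rw [mul_sub, h14]
      ring
    have h15 : ‖Complex.exp (-(Complex.I * (w : ℂ) * T))‖ = 1 := by
      have : -(Complex.I * (w : ℂ) * (T : ℂ)) = ((-(w * T) : ℝ) : ℂ) * Complex.I := by
        push_cast; ring
      rw [this, Complex.norm_exp_ofReal_mul_I]
    rw [h13, norm_mul, norm_mul, h15, one_mul, Complex.norm_real,
      Real.norm_of_nonneg (Real.exp_pos _).le]
    rw [sub_zero] at h11
    have h16 : Real.exp (w * σ) * ((2 * κ) ^ 2 * T) = 4 * C' ^ 2 * T * Real.exp ((w - 60) * σ) := by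
      have h17 : Real.exp ((w - 60) * σ) = Real.exp (w * σ) * (Real.exp (-30 * σ) * Real.exp (-30 * σ)) := by
        rw [← Real.exp_add, ← Real.exp_add]
        congr 1
        ring
      rw [h17, hκ]
      ring
    calc Real.exp (w * σ) * ‖F T - F 0‖ ≤ Real.exp (w * σ) * ((2 * κ) ^ 2 * T) :=
          mul_le_mul_of_nonneg_left h11 (Real.exp_pos _).le
      _ = _ := h16
  have h20 : Tendsto (fun σ : ℝ => 4 * C' ^ 2 * T * Real.exp ((w - 60) * σ)) atTop (𝓝 0) := by
    have h21 : Tendsto (fun σ : ℝ => (w - 60) * σ) atTop atBot :=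
      tendsto_id.const_mul_atTop_of_neg (by linarith)
    have := (Real.tendsto_exp_atBot.comp h21).const_mul (4 * C' ^ 2 * T)
    simpa using this
  have h22 := squeeze_zero_norm' key h20
  have h23 := h22.add (ha.const_mul (Complex.exp (-(Complex.I * (w : ℂ) * T))))
  rw [zero_add] at h23
  refine h23.congr (fun σ => ?_)
  ring

end

end H97.QN
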