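import Pool.Agent.H23.QN.Defs

namespace H97.QN

open Filter Topology Set H23.QN

theorem SEL : S_SEL := by
  intro M hM h1 h2 h3 T0 B hT0
  obtain ⟨Ta, hTa⟩ := h1 (max B 0)
  obtain ⟨Tc, hTc⟩ := h2
  set Tp : ℝ := max T0 (max Ta Tc) with hTp
  have hTp0 : T0 ≤ Tp := le_max_left _ _
  have hTpa : Ta ≤ Tp := (le_max_left _ _).trans (le_max_right _ _)
  have hTpc : Tc ≤ Tp := (le_max_right _ _).trans (le_max_right _ _)
  have hTpnn : 0 ≤ Tp := hT0.trans hTp0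
  -- a point far up
  have hb : ∃ Tb σb : ℝ, 2 * Tp + 200 ≤ Tb ∧ 0 ≤ σb ∧ 1 / 10 ≤ M σb Tb := by
    by_contra hcon
    apply h3
    refine ⟨2 * Tp + 200, fun T hT σ hσ => ?_⟩
    by_contra hlt
    exact hcon ⟨T, σ, hT, hσ, not_lt.1 hlt⟩
  obtain ⟨Tb, σb, hTb, hσb, hMb⟩ := hb
  have hσb2 : σb < Tb / 2 := by
    by_contra hlt
    have := hTc Tb (by linarith) σb (not_lt.1 hlt)
    linarith
  obtain ⟨Td, hTd⟩ := h1 σb
  set G : ℝ := σb + 100 with hG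
  let g : ℝ → ℝ := fun T => max 0 (G - (T - Tp))
  have hgb : g Tb = 0 := by
    simp only [g]
    apply max_eq_left
    linarith
  have hgnn : ∀ T, 0 ≤ g T := fun T => le_max_left _ _
  have hglip : ∀ T S, g T ≤ g S + |T - S| := by
    intro T S
    simp only [g]
    apply max_le
    · have := abs_nonneg (T - S)
      have := le_max_left 0 (G - (S - Tp))
      linarith
    · have h5 := neg_abs_le (T - S)
      have := le_max_right 0 (G - (S - Tp))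
      linarith
  have hgc : Continuous g := by
    simp only [g]
    fun_prop
  -- the compact set
  set D : Set (ℝ × ℝ) := Icc 0 σb ×ˢ Icc Tp (max Tb Td) with hD
  have hDc : IsCompact D := isCompact_Icc.prod isCompact_Icc
  have hMD : ContinuousOn (fun p : ℝ × ℝ => M p.1 p.2) D :=
    hM.mono (by
      rintro ⟨x, y⟩ ⟨hx, hy⟩
      exact ⟨hx.1, hTpnn.trans hy.1⟩)
  set K : Set (ℝ × ℝ) := D ∩ (fun p : ℝ × ℝ => M p.1 p.2) ⁻¹' (Ici (1/10)) with hK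
  have hKc : IsCompact K := by
    have : IsClosed K := hMD.preimage_isClosed_of_isClosed hDc.isClosed isClosed_Ici
    exact hDc.of_isClosed_subset this inter_subset_left
  have hbK : ((σb, Tb) : ℝ × ℝ) ∈ K := by
    refine ⟨⟨⟨hσb, le_refl _⟩, ⟨by simp only; linarith, le_max_left _ _⟩⟩, hMb⟩
  obtain ⟨⟨σ1, T1⟩, hK1, hmin⟩ := hKc.exists_isMinOn ⟨_, hbK⟩
    (f := fun p : ℝ × ℝ => p.1 + g p.2) (by fun_prop)
  have hmin' : ∀ σ T : ℝ, 0 ≤ σ → Tp ≤ T → 1 / 10 ≤ M σ T → σ1 + g T1 ≤ σ + g T := by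
    intro σ T hσ hT hMT
    by_cases hc : σ ≤ σb
    · have hTd' : T ≤ max Tb Td := by
        by_contra hlt
        have h6 : Td ≤ T := ((le_max_right Tb Td).trans_lt (not_le.1 hlt)).le
        have := hTd T h6 σ ⟨hσ, hc⟩
        linarith
      exact hmin (show ((σ, T) : ℝ × ℝ) ∈ K from ⟨⟨⟨hσ, hc⟩, ⟨hT, hTd'⟩⟩, hMT⟩)
    · have h7 : σ1 + g T1 ≤ σb + g Tb := hmin hbK
      have := hgnn T
      rw [hgb] at h7
      linarith [not_le.1 hc]
  obtain ⟨⟨⟨hσ1, hσ1b⟩, ⟨hT1, hT1b⟩⟩, hM1⟩ := hK1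
  simp only at hσ1 hσ1b hT1 hT1b hM1
  have hM1 : 1 / 10 ≤ M σ1 T1 := hM1
  have h8 : σ1 + g T1 ≤ σb := by
    have := hmin' σb Tb hσb (by linarith) hMb
    rwa [hgb, add_zero] at this
  have h9 : Tp + 100 ≤ T1 := by
    have : G - (T1 - Tp) ≤ g T1 := le_max_right _ _
    linarith
  have h10 : max B 0 < σ1 := by
    by_contra hlt
    have := hTa T1 (by linarith) σ1 ⟨hσ1, not_lt.1 hlt⟩
    linarith
  have h11 : ∀ T ∈ Icc (T1 - 20) (T1 + 20), ∀ σ : ℝ, 0 ≤ σ → σ < σ1 - |T - T1| →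
      M σ T < 1 / 10 := by
    intro T hT σ hσ hlt
    by_contra hcon
    have := hmin' σ T hσ (by linarith [hT.1]) (not_lt.1 hcon)
    have := hglip T T1
    linarith
  refine ⟨σ1, T1, by linarith, (le_max_left _ _).trans h10.le, hσ1, ?_, h11⟩
  apply le_antisymm _ hM1
  -- left limit
  have hpos : 0 < σ1 := (le_max_right _ _).trans_lt h10
  have hcont : ContinuousWithinAt (fun σ => M σ T1) (Ici 0) σ1 := by
    have h12 : ContinuousWithinAt (fun p : ℝ × ℝ => M p.1 p.2) (Ici 0 ×ˢ Ici 0) (σ1, T1) :=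
      hM (σ1, T1) ⟨hσ1, hTpnn.trans hT1⟩
    have h13 : ContinuousWithinAt (fun σ : ℝ => ((σ, T1) : ℝ × ℝ)) (Ici 0) σ1 := by
      fun_prop
    have h14 : MapsTo (fun σ : ℝ => ((σ, T1) : ℝ × ℝ)) (Ici 0) (Ici 0 ×ˢ Ici 0) :=
      fun σ hσ => ⟨hσ, hTpnn.trans hT1⟩
    exact ContinuousWithinAt.comp (f := fun σ : ℝ => ((σ, T1) : ℝ × ℝ)) (x := σ1) h12 h13 h14
  have hcont2 : ContinuousWithinAt (fun σ => M σ T1) (Ioo 0 σ1) σ1 :=
    hcont.mono (fun σ hσ => hσ.1.le)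
  have hne : (𝓝[Ioo 0 σ1] σ1).NeBot := by
    rw [nhdsWithin_Ioo_eq_nhdsLT hpos]
    infer_instance
  refine le_of_tendsto hcont2 ?_
  filter_upwards [self_mem_nhdsWithin] with σ hσ
  exact (h11 T1 ⟨by linarith, by linarith⟩ σ hσ.1.le (by simpa using hσ.2)).le

end H97.QN
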